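import Pool.Agent.H15.FLC.ENDC
import Pool.Agent.H5.FL2.YC
import Pool.Agent.H10.FLC.CHC
import Pool.Agent.H13.FLC.LFC
import Pool.Agent.H32.FLC.NMC
import Pool.Agent.H39.FLC.PRC
import Pool.Agent.H48.FLC.HXX
import Pool.Agent.H49.FLC.HLF
import Pool.Agent.H50.FL2.LXC
import Pool.Agent.H91.FLC.BIN
import Pool.Agent.H91.FLC.DET
import Pool.Agent.H95.FLC.CAPC
import Pool.Agent.H95.FLC.EBC
import Pool.Agent.H95.FLC.KRCX

/-!
MP_c62aed_lc, cutting planes for random CNFs: composition of the rows.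
-/

set_option autoImplicit false

namespace Pool.Agent.H15.FLC

theorem mainC : MainC :=
  pf_ENDC
    (Pool.Agent.H91.FLC.pf_DET (Pool.Agent.H95.FLC.pf_EBC Pool.Agent.H50.FL2.pf_LXC)
      Pool.Agent.H95.FLC.pf_KRCX Pool.Agent.H95.FLC.pf_CAPC Pool.Agent.H5.FL2.pf_YC
      Pool.Agent.H13.FLC.pf_LFC Pool.Agent.H39.FLC.pf_PRC)
    Pool.Agent.H91.FLC.pf_BIN (Pool.Agent.H48.FLC.pf_HXX Pool.Agent.H49.FLC.pf_HLF)
    Pool.Agent.H32.FLC.pf_NMC Pool.Agent.H10.FLC.pf_CHC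

end Pool.Agent.H15.FLC
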