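import Pool.Agent.H15.FLC.Stmt
import Pool.Agent.H53.MC.Targets

/-!
MP_c62aed_lc: definitions used in the proof (not in the statement) of `Pool.Agent.H15.FLC.MainC`.
`H : Fin m → Half n k` is one half of a CNF.
-/

set_option autoImplicit false

namespace Pool.Agent.H15.FLC

open Finset
open Pool.Agent.H53.MC (tau)

section

variable {n k m : ℕ} (H : Fin m → Half n k)

/-- The half clause `c` is inside `(A, x)`: its variables are in `A` and `x` violates it. -/
def InsC (p : Finset (Fin n) × (Fin n → Bool)) (c : Fin m) : Prop :=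
  (H c).1.1 ⊆ p.1 ∧ Violates (H c) p.2

open Classical in
/-- The number of the half clauses inside `A` with at most `d` true literals under `x`. -/
noncomputable def cntC (d : ℕ) (A : Finset (Fin n)) (x : Fin n → Bool) : ℕ :=
  (univ.filter fun c : Fin m => (H c).1.1 ⊆ A ∧
    ((H c).1.1.filter fun i => x i = (H c).2 i).card ≤ d).card

/-- In a set of at most `w + k` variables there are at most `s₀` half clauses with at most `d` true
literals under one assignment. -/
def H2 (w d s₀ : ℕ) : Prop :=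
  ∀ A : Finset (Fin n), A.card ≤ w + k → ∀ x : Fin n → Bool, cntC H d A x ≤ s₀

/-- Every assignment of `B` violates a half clause of `T`. -/
def CovC (T : Finset (Fin m)) (B : Finset (Fin n → Bool)) : Prop :=
  ∀ x ∈ B, ∃ c ∈ T, Violates (H c) x

/-- The kernel of `B`. -/
def KerC (r w : ℕ) (B : Finset (Fin n → Bool)) : Set (Finset (Fin n) × (Fin n → Bool)) :=
  {p | p.1.card < w ∧ ∀ T : Finset (Fin m), T.card ≤ r → CovC H T B → ∃ c ∈ T, InsC H p c}

open Classical in
/-- The exceptions of `B`. -/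
noncomputable def ErrC (r w : ℕ) (B : Finset (Fin n → Bool)) : Finset (Fin n → Bool) :=
  B.filter fun x => ∀ A : Finset (Fin n), A.card < w → (A, x) ∉ KerC H r w B

open Classical in
/-- The assignments outside of `E` for which the value of `f` is less than `a`. -/
noncomputable def BRC (E : Finset (Fin n → Bool)) (f : (Fin n → Bool) → ℝ) (a : ℝ) :
    Finset (Fin n → Bool) :=
  univ.filter fun x => x ∉ E ∧ f x < a

open Classical in
/-- The exceptions of the functions before the function `i`. -/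
noncomputable def ERC (r w : ℕ) (f : ℕ → (Fin n → Bool) → ℝ) : ℕ → Finset (Fin n → Bool)
  | 0 => ∅
  | i + 1 => ERC r w f i ∪
      univ.filter fun x => ∃ a : ℝ, x ∈ ErrC H r w (BRC (ERC r w f i) (f i) a)

/-- The chain of the kernels of the function `i`. -/
def KRC (r w : ℕ) (f : ℕ → (Fin n → Bool) → ℝ) (i : ℕ) :
    Set (Set (Finset (Fin n) × (Fin n → Bool))) :=
  {K | ∃ a : ℝ, K = KerC H r w (BRC (ERC H r w f i) (f i) a)}

/-- The set `R` of clauses hits all elements of some member `K` of the chain `𝒦`, but no `q` clauses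
of `R` do. -/
def BadC (q : ℕ) (𝒦 : Set (Set (Finset (Fin n) × (Fin n → Bool)))) (R : Set (Fin m)) : Prop :=
  ∃ K ∈ 𝒦, (∀ p ∈ K, ∃ c ∈ R, InsC H p c) ∧
    ∀ T : Finset (Fin m), (∀ c ∈ T, c ∈ R) → T.card ≤ q → ∃ p ∈ K, ∀ c ∈ T, ¬ InsC H p c

/-- The clauses whose half `H'` is violated by `y`. -/
def RY (H' : Fin m → Half n k) (y : Fin n → Bool) : Set (Fin m) := {c | Violates (H' c) y}

end

/-- The conditions on the parameters. -/
structure ParC (γ : ℝ) (n t k w d s₀ r : ℕ) : Prop where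
  t1 : 1 ≤ t
  nt : n ≤ t
  k1 : 1 ≤ k
  kn : k ≤ n
  d1 : 1 ≤ d
  w1 : 1 ≤ w
  wn : w ≤ n
  rr : t + t * s₀ ≤ r
  γ1 : γ ≤ 1
  tau4 : 4 * (tau n r w d s₀ : ℝ) ≤ 2 ^ ((1 - γ) * n)
  bad4 : 4 * ((s₀ ^ (s₀ + 1) * 2 ^ (n - w) : ℕ) : ℝ) ≤ 2 ^ ((1 - γ) * n)
  cov : 4 * (s₀ * 2 ^ (n - k)) < 2 ^ n

end Pool.Agent.H15.FLC
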