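import Pool.Agent.H15.FLC.Targets

/-!
MP_c62aed_lc, cutting planes for random CNFs, row ENDC: the final statement.
-/

set_option autoImplicit false

namespace Pool.Agent.H15.FLC

open Finset

theorem cardMono {α : Type} [Finite α] {P Q : α → Prop} (h : ∀ x, P x → Q x) :
    Nat.card {x // P x} ≤ Nat.card {x // Q x} :=
  Nat.card_le_card_of_injective (fun x : {x // P x} => (⟨x.1, h x.1 x.2⟩ : {x // Q x}))
    (fun _ _ hab => Subtype.ext (congrArg (fun z : {x // Q x} => z.1) hab))

theorem cardOr {α : Type} [Finite α] (P Q : α → Prop) :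
    Nat.card {x // P x ∨ Q x} ≤ Nat.card {x // P x} + Nat.card {x // Q x} := by
  classical
  have := Fintype.ofFinite α
  simp only [Nat.card_eq_fintype_card]
  exact Fintype.card_subtype_or P Q

/-- A CNF is a pair of tuples of half clauses. -/
def split (n k m : ℕ) : Formula n k m ≃ (Fin m → Half n k) × (Fin m → Half n k) where
  toFun F := (fun c => (F c).1, fun c => (F c).2)
  invFun G := fun c => (G.1 c, G.2 c)
  left_inv _ := rfl
  right_inv _ := rfl

theorem card_fst {n k m : ℕ} (P : (Fin m → Half n k) → Prop) :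
    Nat.card {F : Formula n k m // P (fun c => (F c).1)} =
      Nat.card {G // P G} * Nat.card (Fin m → Half n k) := by
  rw [← Nat.card_prod]
  refine Nat.card_congr ⟨fun F => (⟨fun c => (F.1 c).1, F.2⟩, fun c => (F.1 c).2),
    fun G => ⟨fun c => (G.1.1 c, G.2 c), G.1.2⟩, fun _ => rfl, fun _ => rfl⟩

theorem card_snd {n k m : ℕ} (P : (Fin m → Half n k) → Prop) :
    Nat.card {F : Formula n k m // P (fun c => (F c).2)} =
      Nat.card {G // P G} * Nat.card (Fin m → Half n k) := by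
  rw [← Nat.card_prod]
  refine Nat.card_congr ⟨fun F => (⟨fun c => (F.1 c).2, F.2⟩, fun c => (F.1 c).1),
    fun G => ⟨fun c => (G.2 c, G.1.1 c), G.1.2⟩, fun _ => rfl, fun _ => rfl⟩

theorem card_all (n k m : ℕ) :
    Nat.card (Formula n k m) = Nat.card (Fin m → Half n k) * Nat.card (Fin m → Half n k) := by
  rw [← Nat.card_prod]
  exact Nat.card_congr (split n k m)

theorem pf_ENDC (hDET : T_DET) (hBIN : T_BIN) (hHXX : T_HXX) (hNMC : T_NMC) (hCHC : T_CHC) :
    T_ENDC := by
  obtain ⟨C, hC⟩ := hNMC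
  refine ⟨C + 8, fun ε β n t k m h0 hεβ hβ ht hnt h1 h2 => ⟨fun h3 => ?_, fun h5 => ?_⟩⟩
  · have hl0 : (0 : ℝ) ≤ Nat.log 2 t := Nat.cast_nonneg _
    have hk0 : (0 : ℝ) ≤ k := Nat.cast_nonneg _
    have h1' : (C : ℝ) * Nat.log 2 t ≤ ε ^ 3 * k := by
      push_cast at h1
      nlinarith
    have h2' : (C : ℝ) * k ≤ ε * n := by
      push_cast at h2
      nlinarith
    obtain ⟨w, d, s₀, r, hP, hw, hexp, hs⟩ := hC ε β n t k h0 hεβ hβ ht hnt h1' h2'
    have hsum : ∑ j ∈ range (d + 1), (k.choose j : ℝ) ≤ 2 ^ (ε / 2 * k) := by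
      refine (hBIN (ε / 4) k d (by positivity) (by linarith)).trans (le_trans (le_of_eq ?_) hexp)
      rw [one_div_div]
    have hX := hHXX ε β n k m w d s₀ h0 (h0.trans hεβ) hw h3 hsum hs
    have hmono := cardMono (α := Formula n k m)
      (P := fun F => ∃ (s : ℕ) (f g : ℕ → (Fin n → Bool) → ℝ), (s : ℝ) ≤ 2 ^ ((β - ε) * n) ∧
            Refutes F t s f g)
      (Q := fun F => (¬ H2 (fun c => (F c).1) w d s₀) ∨ ¬ H2 (fun c => (F c).2) w d s₀) (by
        rintro F ⟨s, f, g, hsl, hR⟩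
        by_contra hcon
        push Not at hcon
        exact hDET (β - ε) t w d s₀ r hP F hcon.1 hcon.2 s f g hR hsl)
    have hor := cardOr (α := Formula n k m) (fun F => ¬ H2 (fun c => (F c).1) w d s₀)
      (fun F => ¬ H2 (fun c => (F c).2) w d s₀)
    have e1 := card_fst (n := n) (k := k) (m := m) (fun G => ¬ H2 G w d s₀)
    have e2 := card_snd (n := n) (k := k) (m := m) (fun G => ¬ H2 G w d s₀)
    rw [e1, e2] at hor
    rw [card_all]
    set A := Nat.card {G : Fin m → Half n k // ¬ H2 G w d s₀} with hA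
    set N := Nat.card (Fin m → Half n k) with hN
    refine le_trans (Nat.mul_le_mul_left _ (hmono.trans hor)) ?_
    calc 2 ^ n * (A * N + A * N) = (2 ^ (n + 1) * A) * N := by ring
      _ ≤ N * N := Nat.mul_le_mul_right _ hX
  · refine hCHC ε n t k m h0 (hεβ.le.trans hβ) (by omega) hnt ?_
    refine le_trans ?_ h5
    have hC0 : (0 : ℝ) ≤ C := Nat.cast_nonneg _
    push_cast
    have : (0 : ℝ) ≤ t * 4 ^ k := by positivity
    nlinarith

end Pool.Agent.H15.FLC
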