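import Mathlib

/-!
MP_c62aed_lc: cutting planes and separable inequalities for random CNFs.
The definitions used by the statement.

The variables are `x_i` and `y_i`, `i : Fin n`. An assignment is a pair `(x, y)`.
-/

set_option autoImplicit false

namespace Pool.Agent.H15.FLC

/-- Half of a clause: `k` of the `n` variables and a sign for every variable (only the signs of the
chosen variables are used); its literals say that the chosen variable number `i` has the value
`c.2 i`. -/
abbrev Half (n k : ℕ) : Type := {A : Finset (Fin n) // A.card = k} × (Fin n → Bool)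

/-- All literals of the half clause `c` are false under `x`. -/
def Violates {n k : ℕ} (c : Half n k) (x : Fin n → Bool) : Prop := ∀ i ∈ c.1.1, x i ≠ c.2 i

/-- A CNF with `m` clauses with `k` literals of the variables `x_i` (given by the first half) and `k`
literals of the variables `y_i` (given by the second half). -/
abbrev Formula (n k m : ℕ) : Type := Fin m → Half n k × Half n k

/-- The clause number `c` is false under the assignment `(x, y)`. -/
def False2 {n k m : ℕ} (F : Formula n k m) (c : Fin m) (x y : Fin n → Bool) : Prop :=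
  Violates (F c).1 x ∧ Violates (F c).2 y

/-- The inequalities `0 ≤ f i x + g i y`, `i < s`, with real functions `f i` and `g i` are a
refutation of the CNF `F`: the last one is false under all assignments, and everyone follows from at
most `t` earlier ones and at most `t` clauses. -/
def Refutes {n k m : ℕ} (F : Formula n k m) (t s : ℕ) (f g : ℕ → (Fin n → Bool) → ℝ) : Prop :=
  0 < s ∧ (∀ x y, f (s - 1) x + g (s - 1) y < 0) ∧
    ∀ i, i < s → ∃ (P : Finset ℕ) (T : Finset (Fin m)), P.card ≤ t ∧ T.card ≤ t ∧
      (∀ j ∈ P, j < i) ∧ ∀ x y, (∀ j ∈ P, 0 ≤ f j x + g j y) → (∀ c ∈ T, ¬ False2 F c x y) →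
        0 ≤ f i x + g i y

/-- The final statement. -/
def MainC : Prop :=
  ∃ C : ℕ, ∀ (ε β : ℝ) (n t k m : ℕ), 0 < ε → ε < β → β ≤ 1 → 2 ≤ t → n ≤ t →
    C * Nat.log 2 t ≤ ε ^ 3 * k → C * k ≤ ε * n →
      (m * β ^ k ≤ 2 ^ ((1 - ε) * k) →
        2 ^ n * Nat.card {F : Formula n k m //
          ∃ (s : ℕ) (f g : ℕ → (Fin n → Bool) → ℝ), (s : ℝ) ≤ 2 ^ ((β - ε) * n) ∧
            Refutes F t s f g} ≤ Nat.card (Formula n k m)) ∧
      (C * t * 4 ^ k ≤ ε ^ 2 * m →
        2 ^ t * Nat.card {F : Formula n k m //
          ∃ x y, (Nat.card {c // False2 F c x y} : ℝ) < (1 - ε) * m / 4 ^ k} ≤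
            Nat.card (Formula n k m))

end Pool.Agent.H15.FLC
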