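import Pool.Agent.H15.FLC.Defs

/-!
MP_c62aed_lc, cutting planes for random CNFs: the rows.
Models: `Pool/Agent/H53/MC/*.lean` and the rows of `flx_modules`.
-/

set_option autoImplicit false

namespace Pool.Agent.H15.FLC

open Finset
open Pool.Agent.H53.MC (tau)

/-! ### The assignment side -/

/-- LXC: the exceptions of a chain. -/
def T_LXC : Prop :=
  ∀ {n k m : ℕ} (H : Fin m → Half n k) (r w d s₀ : ℕ), 1 ≤ r → 1 ≤ d → w ≤ n → H2 H w d s₀ →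
    ∀ 𝒞 : Set (Finset (Fin n → Bool)), IsChain (· ⊆ ·) 𝒞 →
      Nat.card {x : Fin n → Bool // ∃ B ∈ 𝒞, x ∈ ErrC H r w B} ≤ tau n r w d s₀

/-- EBC: the number of the exceptions of real functions. -/
def T_EBC : Prop :=
  ∀ {n k m : ℕ} (H : Fin m → Half n k) (r w d s₀ : ℕ), 1 ≤ r → 1 ≤ d → w ≤ n → H2 H w d s₀ →
    ∀ (f : ℕ → (Fin n → Bool) → ℝ) (i : ℕ), (ERC H r w f i).card ≤ i * tau n r w d s₀

/-- KRCX: the kernels of the function `i` are a chain. -/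
def T_KRCX : Prop :=
  ∀ {n k m : ℕ} (H : Fin m → Half n k) (r w : ℕ) (f : ℕ → (Fin n → Bool) → ℝ) (i : ℕ),
    IsChain (· ⊆ ·) (KRC H r w f i) ∧ ∀ K ∈ KRC H r w f i, ∀ p ∈ K, p.1.card < w

/-- CAPC: few half clauses cover few assignments. -/
def T_CAPC : Prop :=
  ∀ {n k m : ℕ} (H : Fin m → Half n k) (q : ℕ) (T : Finset (Fin m))
    (B : Finset (Fin n → Bool)), T.card ≤ q → CovC H T B → B.card ≤ q * 2 ^ (n - k)

/-! ### The other side -/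

/-- YC: few `y` violate `s₀ + 1` given half clauses. -/
def T_YC : Prop :=
  ∀ {n k m : ℕ} (H' : Fin m → Half n k) (w d s₀ : ℕ), H2 H' w d s₀ → w ≤ n →
    ∀ T : Finset (Fin m), T.card = s₀ + 1 →
      Nat.card {y : Fin n → Bool // ∀ c ∈ T, c ∈ RY H' y} ≤ 2 ^ (n - w)

/-- LFC: few `y` are bad for a chain. -/
def T_LFC : Prop :=
  ∀ {n k m : ℕ} (H H' : Fin m → Half n k) (w s₀ q N : ℕ),
    (∀ p : Finset (Fin n) × (Fin n → Bool), p.1.card < w → Nat.card {c // InsC H p c} ≤ s₀) →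
    (∀ T : Finset (Fin m), T.card = q + 1 →
      Nat.card {y : Fin n → Bool // ∀ c ∈ T, c ∈ RY H' y} ≤ N) →
    ∀ 𝒦 : Set (Set (Finset (Fin n) × (Fin n → Bool))), IsChain (· ⊆ ·) 𝒦 →
      (∀ K ∈ 𝒦, ∀ p ∈ K, p.1.card < w) →
      Nat.card {y : Fin n → Bool // BadC H q 𝒦 (RY H' y)} ≤ s₀ ^ (q + 1) * N

/-! ### The proof -/

/-- PRC: for good `y` every line has a small cover. -/
def T_PRC : Prop :=
  ∀ {n k m : ℕ} (F : Formula n k m) (r w q t s : ℕ) (f g : ℕ → (Fin n → Bool) → ℝ),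
    t + t * q ≤ r → Refutes F t s f g → ∀ y : Fin n → Bool,
    (∀ i, i < s → ¬ BadC (fun c => (F c).1) q (KRC (fun c => (F c).1) r w f i)
      (RY (fun c => (F c).2) y)) → ∀ i, i < s →
      ∃ T : Finset (Fin m), (∀ c ∈ T, c ∈ RY (fun c => (F c).2) y) ∧ T.card ≤ q ∧
        CovC (fun c => (F c).1) T (BRC (ERC (fun c => (F c).1) r w f (i + 1)) (f i) (-(g i y)))

/-- DET: CNFs whose halves satisfy `H2` have no short refutations. -/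
def T_DET : Prop :=
  ∀ {n k m : ℕ} (γ : ℝ) (t w d s₀ r : ℕ), ParC γ n t k w d s₀ r → ∀ F : Formula n k m,
    H2 (fun c => (F c).1) w d s₀ → H2 (fun c => (F c).2) w d s₀ →
    ∀ (s : ℕ) (f g : ℕ → (Fin n → Bool) → ℝ), Refutes F t s f g → ¬ (s : ℝ) ≤ 2 ^ (γ * n)

/-! ### Counting the CNFs -/

/-- BIN: binomial tails. -/
def T_BIN : Prop :=
  ∀ (l : ℝ) (k d : ℕ), 0 < l → l ≤ 1 →
    ∑ j ∈ range (d + 1), (k.choose j : ℝ) ≤ (1 / l) ^ d * Real.exp (l * k)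

/-- HLF: the number of the half clauses inside `A` with at most `d` true literals under `x`. -/
def T_HLF : Prop :=
  ∀ (β : ℝ) (n k d : ℕ) (A : Finset (Fin n)) (x : Fin n → Bool), 0 ≤ β → (A.card : ℝ) ≤ β * n →
    (Nat.card {c : Half n k // c.1.1 ⊆ A ∧ (c.1.1.filter fun i => x i = c.2 i).card ≤ d} : ℝ) ≤
      (β / 2) ^ k * (∑ j ∈ range (d + 1), (k.choose j : ℝ)) * Nat.card (Half n k)

/-- HXX: few tuples of half clauses violate `H2`. -/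
def T_HXX : Prop :=
  ∀ (ε β : ℝ) (n k m w d s₀ : ℕ), 0 < ε → 0 < β → (w + k : ℝ) ≤ β * n →
    m * β ^ k ≤ 2 ^ ((1 - ε) * k) →
    ∑ j ∈ range (d + 1), (k.choose j : ℝ) ≤ 2 ^ (ε / 2 * k) →
    4 * (n : ℝ) + 4 ≤ ε / 2 * k * (s₀ + 1) →
    2 ^ (n + 1) * Nat.card {H : Fin m → Half n k // ¬ H2 H w d s₀} ≤
      Nat.card (Fin m → Half n k)

/-- NMC: the parameters. -/
def T_NMC : Prop :=
  ∃ C : ℕ, ∀ (ε β : ℝ) (n t k : ℕ), 0 < ε → ε < β → β ≤ 1 → 2 ≤ t → n ≤ t →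
    C * Nat.log 2 t ≤ ε ^ 3 * k → C * k ≤ ε * n →
      ∃ w d s₀ r : ℕ, ParC (β - ε) n t k w d s₀ r ∧ (w + k : ℝ) ≤ β * n ∧
        (4 / ε) ^ d * Real.exp (ε / 4 * k) ≤ 2 ^ (ε / 2 * k) ∧
        4 * (n : ℝ) + 4 ≤ ε / 2 * k * (s₀ + 1)

/-- CHC: Chernoff and the union bound. -/
def T_CHC : Prop :=
  ∀ (ε : ℝ) (n t k m : ℕ), 0 < ε → ε ≤ 1 → 1 ≤ t → n ≤ t → 8 * t * 4 ^ k ≤ ε ^ 2 * m →
    2 ^ t * Nat.card {F : Formula n k m //
      ∃ x y, (Nat.card {c // False2 F c x y} : ℝ) < (1 - ε) * m / 4 ^ k} ≤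
        Nat.card (Formula n k m)

/-- ENDC: the final statement. -/
def T_ENDC : Prop := MainC

end Pool.Agent.H15.FLC
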